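import Pool.Agent.Helper25_CN2.Stmts
import Pool.Agent.Helper25_CON.PDLem

/-!
Squad CN2: T_RAD, T_CAP, K_CAP
-/

set_option autoImplicit false

noncomputable section

namespace Pool.Agent.CN2.H45

open Pool.Agent.H25Cong Pool.Agent.CON

variable {M : Type} [AddCommGroup M] {b : M → M → ℤ} {C : Set M} {s : ℤ}

/-- products with an even vector -/
lemma even_of (hb : PD b) {x : M} (h : ∀ α ∈ C, (2 : ℤ) ∣ b x α) :
    ∀ y ∈ AddSubgroup.closure C, (2 : ℤ) ∣ b x y := by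
  intro y hy
  rw [hb.symm]
  exact hb.closure_dvd (fun z hz => by rw [hb.symm]; exact h z hz) y hy

/-- the vectors of an orthogonal frame are in the lattice -/
lemma frame_mem (hb : PD b) {k : ℕ} {F : Fin k → M} (hF : DFr b C s k F) {i j : Fin k}
    (hij : i ≠ j) : F i ∈ AddSubgroup.closure C := by
  obtain ⟨⟨w, hw, e⟩, ⟨w', hw', e'⟩⟩ := hF.2.2 i j hij
  have h2 : (2 : ℤ) • (w + w' - F i) = 0 := by
    rw [smul_sub, smul_add, e, e', two_zsmul]; abel
  have h3 := hb.zsmul_eq_zero (by norm_num) h2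
  rw [← sub_eq_zero.1 h3]
  exact AddSubgroup.add_mem _ (AddSubgroup.subset_closure hw) (AddSubgroup.subset_closure hw')

theorem t_rad : T_RAD := by
  intro M _ b C s τ hb hI hs hty hmd
  have hnorm : ∃ k : ℤ, 4 * s = 8 * k + 4 := ⟨s / 2, by omega⟩
  cases τ with
  | A k =>
    obtain ⟨-, v, ⟨hv, hvv⟩, hA⟩ := hty
    have hk : k = 3 := hmd
    subst hk
    have n : ∀ i, b (v i) (v i) = 2 * s := fun i => hI.norm _ (hv i)
    have e01 := hvv 0 1 (by decide)
    have e02 := hvv 0 2 (by decide)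
    have e12 := hvv 1 2 (by decide)
    have e10 := hvv 1 0 (by decide)
    have e20 := hvv 2 0 (by decide)
    have e21 := hvv 2 1 (by decide)
    have n0 := n 0
    have n1 := n 1
    have n2 := n 2
    have m : ∀ i, v i ∈ AddSubgroup.closure C := fun i => AddSubgroup.subset_closure (hv i)
    have key : ∀ i, (2 : ℤ) ∣ b (v 0 + v 1 - v 2) (v i) := by
      intro i
      rw [hb.sub_left, hb.add_left]
      fin_cases i
      · show (2 : ℤ) ∣ b (v 0) (v 0) + b (v 1) (v 0) - b (v 2) (v 0)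
        omega
      · show (2 : ℤ) ∣ b (v 0) (v 1) + b (v 1) (v 1) - b (v 2) (v 1)
        omega
      · show (2 : ℤ) ∣ b (v 0) (v 2) + b (v 1) (v 2) - b (v 2) (v 2)
        omega
    refine ⟨v 0 + v 1 - v 2, AddSubgroup.sub_mem _ (AddSubgroup.add_mem _ (m 0) (m 1)) (m 2),
      even_of hb fun α hα => ?_, ?_⟩
    · rcases hA α hα with ⟨i, rfl | rfl⟩ | ⟨i, j, -, rfl⟩
      · exact key i
      · rw [hb.neg_right]; exact (dvd_neg).2 (key i)
      · rw [hb.sub_right]; exact dvd_sub (key i) (key j)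
    · obtain ⟨k, hk⟩ := hnorm
      refine ⟨k, ?_⟩
      rw [← hk]
      simp only [hb.sub_left, hb.add_left, hb.sub_right, hb.add_right]
      omega
  | D k =>
    obtain ⟨h4, F, hF, hD⟩ := hty
    have hk : k = 4 := hmd
    subst hk
    refine ⟨F 0, frame_mem hb hF (i := 0) (j := 1) (by decide), even_of hb fun α hα => ?_, ?_⟩
    · have key : ∀ i, ∃ q : ℤ, b (F 0) (F i) = 4 * q := by
        intro i
        by_cases h0 : (0 : Fin 4) = i
        · subst h0; exact ⟨s, hF.1 0⟩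
        · exact ⟨0, by rw [hF.2.1 0 i h0]; ring⟩
      obtain ⟨i, j, -, h⟩ := hD α hα
      obtain ⟨p, hp⟩ := key i
      obtain ⟨q, hq⟩ := key j
      have e := hb.zsmul_right 2 (F 0) α
      rcases h with h | h | h
      · rw [h, hb.add_right, hp, hq] at e; omega
      · rw [h, hb.sub_right, hp, hq] at e; omega
      · rw [h, hb.neg_right, hb.add_right, hp, hq] at e; omega
    · obtain ⟨k, hk⟩ := hnorm
      exact ⟨k, by rw [← hk]; exact hF.1 0⟩
  | E k => exact hmd.elim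

/-- two roots of an orthogonal frame -/
lemma frame_prod (hb : PD b) {k : ℕ} {F : Fin k → M} (hF : DFr b C s k F) {i j i' j' : Fin k}
    {w w' : M} (hw : (2 : ℤ) • w = F i + F j) (hw' : (2 : ℤ) • w' = F i' + F j') :
    4 * b w w' = b (F i) (F i') + b (F i) (F j') + b (F j) (F i') + b (F j) (F j') := by
  have e : b ((2 : ℤ) • w) ((2 : ℤ) • w') = 4 * b w w' := by
    rw [hb.zsmul_left, hb.zsmul_right]; ring
  rw [← e, hw, hw', hb.add_left, hb.add_right, hb.add_right]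
  ring

theorem t_cap (hA : G_CLA) (hD : G_CLD) : T_CAP := by
  intro M _ b C s τ hb hI hs hty hbig
  cases τ with
  | A k =>
    obtain ⟨-, v, hv, hA'⟩ := hty
    obtain ⟨x, hx, h1, h2, -⟩ := hA M b C s k 4 v hb hI hs hv hA' (by norm_num) (by decide) hbig
    refine ⟨x, hx, ?_, h2⟩
    have : (4 : ℤ) ∣ b x x - 4 := by exact_mod_cast h1
    omega
  | D k =>
    obtain ⟨-, F, hF, hD'⟩ := hty
    have hk : 5 ≤ k := hbig
    obtain ⟨x, hx, h1, h2, -⟩ := hD M b C s k 4 F hb hI hs hF hD' (by norm_num) (by decide) (by omega)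
    refine ⟨x, hx, ?_, h2⟩
    have : (4 : ℤ) ∣ b x x - 4 := by exact_mod_cast h1
    omega
  | E k =>
    obtain ⟨hk, F, α, -, hF, -, -⟩ := hty
    have h5 : 5 ≤ k - 1 := by omega
    have ne : ∀ {a c : ℕ} (ha : a < k - 1) (hc : c < k - 1), a ≠ c →
        (⟨a, ha⟩ : Fin (k - 1)) ≠ ⟨c, hc⟩ := fun ha hc h e => h (Fin.mk.inj e)
    have n01 : (⟨0, by omega⟩ : Fin (k - 1)) ≠ ⟨1, by omega⟩ := ne _ _ (by norm_num)
    have n02 : (⟨0, by omega⟩ : Fin (k - 1)) ≠ ⟨2, by omega⟩ := ne _ _ (by norm_num)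
    have n03 : (⟨0, by omega⟩ : Fin (k - 1)) ≠ ⟨3, by omega⟩ := ne _ _ (by norm_num)
    have n04 : (⟨0, by omega⟩ : Fin (k - 1)) ≠ ⟨4, by omega⟩ := ne _ _ (by norm_num)
    have n12 : (⟨1, by omega⟩ : Fin (k - 1)) ≠ ⟨2, by omega⟩ := ne _ _ (by norm_num)
    have n13 : (⟨1, by omega⟩ : Fin (k - 1)) ≠ ⟨3, by omega⟩ := ne _ _ (by norm_num)
    have n14 : (⟨1, by omega⟩ : Fin (k - 1)) ≠ ⟨4, by omega⟩ := ne _ _ (by norm_num)
    have n23 : (⟨2, by omega⟩ : Fin (k - 1)) ≠ ⟨3, by omega⟩ := ne _ _ (by norm_num)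
    have n24 : (⟨2, by omega⟩ : Fin (k - 1)) ≠ ⟨4, by omega⟩ := ne _ _ (by norm_num)
    have n34 : (⟨3, by omega⟩ : Fin (k - 1)) ≠ ⟨4, by omega⟩ := ne _ _ (by norm_num)
    obtain ⟨w, hw, e⟩ := (hF.2.2 _ _ n01).1
    obtain ⟨w', hw', e'⟩ := (hF.2.2 _ _ n23).1
    obtain ⟨y, hy, ey⟩ := (hF.2.2 _ _ n04).1
    have p1 := frame_prod hb hF e e'
    have p2 := frame_prod hb hF e ey
    have p3 := frame_prod hb hF e' ey
    rw [hF.2.1 _ _ n02, hF.2.1 _ _ n03, hF.2.1 _ _ n12, hF.2.1 _ _ n13] at p1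
    rw [hF.1, hF.2.1 _ _ n04, hF.2.1 _ _ n01.symm, hF.2.1 _ _ n14] at p2
    rw [hF.2.1 _ _ n02.symm, hF.2.1 _ _ n24, hF.2.1 _ _ n03.symm, hF.2.1 _ _ n34] at p3
    have q1 := hI.norm w hw
    have q2 := hI.norm w' hw'
    refine ⟨w + w', AddSubgroup.add_mem _ (AddSubgroup.subset_closure hw)
      (AddSubgroup.subset_closure hw'), ?_, y, AddSubgroup.subset_closure hy, ?_⟩
    · rw [hb.add_left, hb.add_right, hb.add_right, hb.symm w' w, q1, q2]
      omega
    · rw [hb.add_left]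
      omega

/-- middle types contain two roots with product s -/
lemma mid_pair (hb : PD b) (hI : Irr b C s) {τ : Ty} (hty : HasTy b C s τ) (hm : τ.mid) :
    ∃ α ∈ C, ∃ β ∈ C, b α β = s := by
  cases τ with
  | A k =>
    obtain ⟨-, v, hv, -⟩ := hty
    have hk : k = 2 ∨ k = 3 := hm
    exact ⟨v ⟨0, by omega⟩, hv.1 _, v ⟨1, by omega⟩, hv.1 _, hv.2 _ _ (by
      intro e; exact absurd (Fin.mk.inj e) (by norm_num))⟩
  | D k =>
    obtain ⟨-, F, hF, -⟩ := hty
    have hk : k = 4 := hm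
    subst hk
    obtain ⟨w, hw, e⟩ := (hF.2.2 0 1 (by decide)).1
    obtain ⟨y, hy, ey⟩ := (hF.2.2 0 2 (by decide)).1
    have p := frame_prod hb hF e ey
    rw [hF.1, hF.2.1 0 2 (by decide), hF.2.1 1 0 (by decide), hF.2.1 1 2 (by decide)] at p
    exact ⟨w, hw, y, hy, by omega⟩
  | E k => exact hm.elim

theorem k_cap (hT : T_CAP) (_ : E_NON) : K_CAP := by
  intro M _ b k C s τ hb hC
  refine ⟨fun i hs hbig => ?_, fun i j hij hs hm hs' => ?_⟩
  · have e : (⋃ l ∈ ({i} : Finset (Fin k)), C l) = C i := by simp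
    rw [e]
    exact hT M b (C i) (s i) (τ i) hb (hC.irr i) hs (hC.ty i) hbig
  · obtain ⟨α, hα, β, hβ, e⟩ := mid_pair hb (hC.irr i) (hC.ty i) hm
    obtain ⟨γ, hγ⟩ := (hC.irr j).ne
    have hsub : ∀ l ∈ ({i, j} : Finset (Fin k)), ∀ x ∈ C l,
        x ∈ AddSubgroup.closure (⋃ l ∈ ({i, j} : Finset (Fin k)), C l) := fun l hl x hx =>
      AddSubgroup.subset_closure (Set.mem_iUnion₂.2 ⟨l, hl, hx⟩)
    have hi : i ∈ ({i, j} : Finset (Fin k)) := by simp
    have hj : j ∈ ({i, j} : Finset (Fin k)) := by simp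
    have o1 := hC.orth i j hij α hα γ hγ
    have o2 := hC.orth i j hij β hβ γ hγ
    have n1 := (hC.irr i).norm α hα
    have n2 := (hC.irr j).norm γ hγ
    refine ⟨α + γ, AddSubgroup.add_mem _ (hsub i hi α hα) (hsub j hj γ hγ), ?_, β, hsub i hi β hβ, ?_⟩
    · rw [hb.add_left, hb.add_right, hb.add_right, hb.symm γ α, o1, n1, n2]
      omega
    · rw [hb.add_left, e, hb.symm γ β, o2]
      omega

end Pool.Agent.CN2.H45

end
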